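import Mathlib

/-!
# MP_78c384_co: bounded tolerance graphs need not be max-tolerance graphs

All complete bipartite graphs are bounded tolerance graphs, but `K_{m,n}` with `m, n ≥ 3` is not a
max-tolerance graph.

Proof. Write the interval of `v` as `[L v, R v]`. In a max-tolerance representation two vertices `u`
and `v` are adjacent iff `max (L u) (L v) + max (- R u) (- R v) + max (t u) (t v) ≤ 0`, that is, iff
the homothetic triangles `x ≥ L`, `-y ≥ -R`, `y - x ≥ t` meet. Two disjoint triangles are separated
by a line parallel to one of the three sides, and this direction cannot be the same for a pair of the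
first class and a pair of the second class. Hence all three pairs of one of the classes are separated
in the same direction. The middle one of these three triangles is met by the three triangles of the
other class in its longest chord of this direction, but each of them has a longer chord on this line.
-/

set_option autoImplicit false

namespace Pool.Agent.Results.MP_78c384_co.CompleteBipartite

/-- The length of the intersection of the closed intervals `[a.1, a.2]` and `[b.1, b.2]`. -/
noncomputable def overlap (a b : ℝ × ℝ) : ℝ :=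
  (MeasureTheory.volume (Set.Icc a.1 a.2 ∩ Set.Icc b.1 b.2)).toReal

/-- `G` is a bounded tolerance graph: the vertex `v` gets the closed interval `[(I v).1, (I v).2]`
and the tolerance `t v > 0`, which is at most the length of this interval, and distinct vertices are
adjacent iff their intervals intersect in a set of length at least the smaller tolerance. -/
def IsBoundedTolerance {V : Type} (G : SimpleGraph V) : Prop :=
  ∃ (I : V → ℝ × ℝ) (t : V → ℝ), (∀ v, (I v).1 ≤ (I v).2) ∧ (∀ v, 0 < t v) ∧
    (∀ v, t v ≤ (I v).2 - (I v).1) ∧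
    ∀ x y, x ≠ y → (G.Adj x y ↔ min (t x) (t y) ≤ overlap (I x) (I y))

/-- `G` is a max-tolerance graph: the vertex `v` gets the closed interval `[(I v).1, (I v).2]`
and the tolerance `t v > 0`, and distinct vertices are adjacent iff their intervals intersect in a
set of length at least the larger tolerance. -/
def IsMaxTolerance {V : Type} (G : SimpleGraph V) : Prop :=
  ∃ (I : V → ℝ × ℝ) (t : V → ℝ), (∀ v, (I v).1 ≤ (I v).2) ∧ (∀ v, 0 < t v) ∧
    ∀ x y, x ≠ y → (G.Adj x y ↔ max (t x) (t y) ≤ overlap (I x) (I y))

theorem overlap_eq (a b : ℝ × ℝ) : overlap a b = max (min a.2 b.2 - max a.1 b.1) 0 := by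
  rw [overlap, Set.Icc_inter_Icc, Real.volume_Icc, ENNReal.toReal_ofReal']

/-! ### Complete bipartite graphs are bounded tolerance graphs -/

theorem bounded (m n : ℕ) : IsBoundedTolerance (completeBipartiteGraph (Fin m) (Fin n)) := by
  refine ⟨Sum.elim (fun i => ((2 * i.val : ℝ), (2 * i.val + 1 : ℝ)))
      (fun j => ((-(j.val : ℝ)), (2 * m + n - j.val : ℝ))),
    Sum.elim (fun _ => 1) (fun _ => 2 * m + n), ?_, ?_, ?_, ?_⟩
  · rintro (i | j)
    · simp
    · simp
      positivity
  · rintro (i | j)
    · simp
    · have := j.pos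
      simp only [Sum.elim_inr]
      positivity
  · rintro (i | j)
    · simp
    · simp
  · rintro (i | j) (i' | j') hne
    · have hij : i.val ≠ i'.val := fun h => hne (by rw [Fin.ext h])
      simp only [completeBipartiteGraph_adj, Sum.isLeft_inl, Sum.isRight_inl, Sum.elim_inl,
        overlap_eq, min_self]
      constructor
      · simp
      · intro h
        exfalso
        have h1 : (1 : ℝ) ≤ min (2 * (i.val : ℝ) + 1) (2 * i'.val + 1) -
            max (2 * (i.val : ℝ)) (2 * i'.val) := by
          rcases le_max_iff.1 h with h | h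
          · exact h
          · linarith
        rcases lt_or_gt_of_ne hij with h2 | h2
        · have h3 : (i.val : ℝ) + 1 ≤ i'.val := by exact_mod_cast h2
          have h4 := min_le_left (2 * (i.val : ℝ) + 1) (2 * i'.val + 1)
          have h5 := le_max_right (2 * (i.val : ℝ)) (2 * i'.val)
          linarith
        · have h3 : (i'.val : ℝ) + 1 ≤ i.val := by exact_mod_cast h2
          have h4 := min_le_right (2 * (i.val : ℝ) + 1) (2 * i'.val + 1)
          have h5 := le_max_left (2 * (i.val : ℝ)) (2 * i'.val)
          linarith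
    · simp only [completeBipartiteGraph_adj, Sum.isLeft_inl, Sum.isRight_inr, Sum.elim_inl,
        Sum.elim_inr, overlap_eq, true_and, true_or, true_iff]
      have h1 : (i.val : ℝ) + 1 ≤ m := by exact_mod_cast i.isLt
      have h2 : (j'.val : ℝ) + 1 ≤ n := by exact_mod_cast j'.isLt
      have h3 : (0 : ℝ) ≤ j'.val := by positivity
      have h4 : (0 : ℝ) ≤ i.val := by positivity
      rw [min_eq_left (by linarith), min_eq_left (by linarith), max_eq_left (b := -(j'.val : ℝ)) (by linarith)]
      exact le_max_of_le_left (by linarith)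
    · simp only [completeBipartiteGraph_adj, Sum.isLeft_inl, Sum.isRight_inr, Sum.elim_inl,
        Sum.elim_inr, overlap_eq, or_true, true_iff, and_self, Sum.isLeft_inr, Sum.isRight_inl]
      have h1 : (i'.val : ℝ) + 1 ≤ m := by exact_mod_cast i'.isLt
      have h2 : (j.val : ℝ) + 1 ≤ n := by exact_mod_cast j.isLt
      have h3 : (0 : ℝ) ≤ j.val := by positivity
      have h4 : (0 : ℝ) ≤ i'.val := by positivity
      rw [min_eq_right (by linarith), min_eq_right (by linarith), max_eq_right (a := -(j.val : ℝ)) (by linarith)]
      exact le_max_of_le_left (by linarith)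
    · have hij : j.val ≠ j'.val := fun h => hne (by rw [Fin.ext h])
      have hm : (0 : ℝ) ≤ m := by positivity
      have hn : (1 : ℝ) ≤ n := by exact_mod_cast j.pos
      simp only [completeBipartiteGraph_adj, Sum.isLeft_inr, Sum.isRight_inr, Sum.elim_inr,
        overlap_eq, min_self]
      constructor
      · simp
      · intro h
        exfalso
        have h1 : (2 * m + n : ℝ) ≤ min (2 * (m : ℝ) + n - j.val) (2 * m + n - j'.val) -
            max (-(j.val : ℝ)) (-(j'.val : ℝ)) := by
          rcases le_max_iff.1 h with h | h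
          · exact h
          · linarith
        rcases lt_or_gt_of_ne hij with h2 | h2
        · have h3 : (j.val : ℝ) + 1 ≤ j'.val := by exact_mod_cast h2
          have h4 := min_le_right (2 * (m : ℝ) + n - j.val) (2 * m + n - j'.val)
          have h5 := le_max_left (-(j.val : ℝ)) (-(j'.val : ℝ))
          linarith
        · have h3 : (j'.val : ℝ) + 1 ≤ j.val := by exact_mod_cast h2
          have h4 := min_le_left (2 * (m : ℝ) + n - j.val) (2 * m + n - j'.val)
          have h5 := le_max_right (-(j.val : ℝ)) (-(j'.val : ℝ))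
          linarith

/-! ### The triangle argument -/

/-- three pairwise disjoint intervals which are longer than an interval do not all meet it -/
theorem three_intervals (p q : Fin 3 → ℝ) (a b : ℝ) (h1 : ∀ i j, i ≠ j → q i < p j ∨ q j < p i)
    (h2 : ∀ i, p i ≤ b) (h3 : ∀ i, a ≤ q i) (h4 : ∀ i, b - a < q i - p i) : False := by
  have h01 := h1 0 1 (by decide)
  have h02 := h1 0 2 (by decide)
  have h12 := h1 1 2 (by decide)
  have a0 := h2 0
  have a1 := h2 1
  have a2 := h2 2
  have b0 := h3 0
  have b1 := h3 1
  have b2 := h3 2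
  have c0 := h4 0
  have c1 := h4 1
  have c2 := h4 2
  rcases h01 with h01 | h01 <;> rcases h02 with h02 | h02 <;> rcases h12 with h12 | h12 <;> linarith

/-- The main case: the triangles `A 0, A 1, A 2` (in this order) are separated in the direction of
the first coordinate. -/
theorem sorted (x y z x' y' z' : Fin 3 → ℝ)
    (hAB : ∀ i j, max (x i) (x' j) + max (y i) (y' j) + max (z i) (z' j) ≤ 0)
    (hBB : ∀ i j, i ≠ j → 0 < max (x' i) (x' j) + max (y' i) (y' j) + max (z' i) (z' j))
    (a b c : Fin 3) (h01 : 0 < x b + y a + z a) (h12 : 0 < x c + y b + z b) : False := by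
  have k1 : ∀ j, x' j + y a + z a ≤ 0 := fun j => by
    have := hAB a j
    have h1 := le_max_right (x a) (x' j)
    have h2 := le_max_left (y a) (y' j)
    have h3 := le_max_left (z a) (z' j)
    linarith
  have k2 : ∀ j, x c + y' j + z' j ≤ 0 := fun j => by
    have := hAB c j
    have h1 := le_max_left (x c) (x' j)
    have h2 := le_max_right (y c) (y' j)
    have h3 := le_max_right (z c) (z' j)
    linarith
  refine three_intervals (fun j => y' j) (fun j => - x b - z' j) (y b) (- x b - z b) ?_ ?_ ?_ ?_
  · intro i j hij
    have h := hBB i j hij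
    have hx : max (x' i) (x' j) ≤ x b := max_le (by linarith [k1 i]) (by linarith [k1 j])
    rcases max_cases (y' i) (y' j) with ⟨e1, f1⟩ | ⟨e1, f1⟩ <;>
      rcases max_cases (z' i) (z' j) with ⟨e2, f2⟩ | ⟨e2, f2⟩
    · exfalso
      have := hAB b i
      have h1 := le_max_left (x b) (x' i)
      have h2 := le_max_right (y b) (y' i)
      have h3 := le_max_right (z b) (z' i)
      linarith
    · right
      linarith
    · left
      linarith
    · exfalso
      have := hAB b j
      have h1 := le_max_left (x b) (x' j)
      have h2 := le_max_right (y b) (y' j)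
      have h3 := le_max_right (z b) (z' j)
      linarith
  · intro j
    have := hAB b j
    have h1 := le_max_left (x b) (x' j)
    have h2 := le_max_right (y b) (y' j)
    have h3 := le_max_left (z b) (z' j)
    linarith
  · intro j
    have := hAB b j
    have h1 := le_max_left (x b) (x' j)
    have h2 := le_max_left (y b) (y' j)
    have h3 := le_max_right (z b) (z' j)
    linarith
  · intro j
    have := k2 j
    linarith

/-- all three pairs of the first class are separated in the direction of the first coordinate -/
theorem one_direction (x y z x' y' z' : Fin 3 → ℝ)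
    (hAB : ∀ i j, max (x i) (x' j) + max (y i) (y' j) + max (z i) (z' j) ≤ 0)
    (hBB : ∀ i j, i ≠ j → 0 < max (x' i) (x' j) + max (y' i) (y' j) + max (z' i) (z' j))
    (hAA : ∀ i : Fin 3, 0 < x i + y (i + 1) + z (i + 1) ∨ 0 < x (i + 1) + y i + z i) : False := by
  have h0 := hAA 0
  have h1 := hAA 1
  have h2 := hAA 2
  simp only [Fin.isValue, zero_add, Fin.reduceAdd] at h0 h1 h2
  have S := sorted x y z x' y' z' hAB hBB
  have own : ∀ i, x i + y i + z i ≤ 0 := fun i => by
    have := hAB i 0
    have h1 := le_max_left (x i) (x' 0)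
    have h2 := le_max_left (y i) (y' 0)
    have h3 := le_max_left (z i) (z' 0)
    linarith
  rcases h0 with h0 | h0 <;> rcases h1 with h1 | h1 <;> rcases h2 with h2 | h2
  · have := own 0
    have := own 1
    have := own 2
    linarith
  · exact S 2 1 0 h1 h0
  · exact S 1 0 2 h0 h2
  · exact S 1 2 0 h1 h2
  · exact S 0 2 1 h2 h1
  · exact S 2 0 1 h2 h0
  · exact S 0 1 2 h0 h1
  · have := own 0
    have := own 1
    have := own 2
    linarith

/-- a combinatorial fact on the directions: if no direction separates both a pair of the first and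
a pair of the second class, then one of the classes has only one direction -/
theorem directions : ∀ f g : Fin 3 → Fin 3, (∀ i j, f i ≠ g j) →
    (∃ c, ∀ i, f i = c) ∨ (∃ c, ∀ i, g i = c) := by
  decide

/-- two triangles that are disjoint are separated in one of the three directions -/
theorem separated (x y : Fin 3 → ℝ) (hx : x 0 + x 1 + x 2 ≤ 0) (hy : y 0 + y 1 + y 2 ≤ 0)
    (h : 0 < max (x 0) (y 0) + max (x 1) (y 1) + max (x 2) (y 2)) :
    ∃ c : Fin 3, 0 < x c + y (c + 1) + y (c + 2) ∨ 0 < y c + x (c + 1) + x (c + 2) := by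
  rcases max_cases (x 0) (y 0) with ⟨e0, f0⟩ | ⟨e0, f0⟩ <;>
    rcases max_cases (x 1) (y 1) with ⟨e1, f1⟩ | ⟨e1, f1⟩ <;>
    rcases max_cases (x 2) (y 2) with ⟨e2, f2⟩ | ⟨e2, f2⟩ <;> rw [e0, e1, e2] at h
  · linarith
  · exact ⟨2, Or.inr (by simp only [Fin.isValue, Fin.reduceAdd]; linarith)⟩
  · exact ⟨1, Or.inr (by simp only [Fin.isValue, Fin.reduceAdd]; linarith)⟩
  · exact ⟨0, Or.inl (by simp only [Fin.isValue, zero_add]; linarith)⟩
  · exact ⟨0, Or.inr (by simp only [Fin.isValue, zero_add]; linarith)⟩
  · exact ⟨1, Or.inl (by simp only [Fin.isValue, Fin.reduceAdd]; linarith)⟩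
  · exact ⟨2, Or.inl (by simp only [Fin.isValue, Fin.reduceAdd]; linarith)⟩
  · linarith

/-- three pairwise disjoint and three pairwise disjoint homothetic triangles do not form a `K_{3,3}` -/
theorem no_triangles (A B : Fin 3 → Fin 3 → ℝ)
    (hAB : ∀ i j, max (A i 0) (B j 0) + max (A i 1) (B j 1) + max (A i 2) (B j 2) ≤ 0)
    (hAA : ∀ i j, i ≠ j → 0 < max (A i 0) (A j 0) + max (A i 1) (A j 1) + max (A i 2) (A j 2))
    (hBB : ∀ i j, i ≠ j → 0 < max (B i 0) (B j 0) + max (B i 1) (B j 1) + max (B i 2) (B j 2)) :
    False := by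
  have hAB' : ∀ i j c, max (A i c) (B j c) + max (A i (c + 1)) (B j (c + 1)) +
      max (A i (c + 2)) (B j (c + 2)) ≤ 0 := by
    intro i j c
    have h := hAB i j
    fin_cases c
    · simpa using h
    · simp only [Fin.mk_one, Fin.isValue, Fin.reduceAdd]
      linarith
    · simp only [Fin.reduceFinMk, Fin.isValue, Fin.reduceAdd]
      linarith
  have hAA' : ∀ i j c, i ≠ j → 0 < max (A i c) (A j c) + max (A i (c + 1)) (A j (c + 1)) +
      max (A i (c + 2)) (A j (c + 2)) := by
    intro i j c hij
    have h := hAA i j hij
    fin_cases c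
    · simpa using h
    · simp only [Fin.mk_one, Fin.isValue, Fin.reduceAdd]
      linarith
    · simp only [Fin.reduceFinMk, Fin.isValue, Fin.reduceAdd]
      linarith
  have hBB' : ∀ i j c, i ≠ j → 0 < max (B i c) (B j c) + max (B i (c + 1)) (B j (c + 1)) +
      max (B i (c + 2)) (B j (c + 2)) := by
    intro i j c hij
    have h := hBB i j hij
    fin_cases c
    · simpa using h
    · simp only [Fin.mk_one, Fin.isValue, Fin.reduceAdd]
      linarith
    · simp only [Fin.reduceFinMk, Fin.isValue, Fin.reduceAdd]
      linarith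
  have ownA : ∀ i, A i 0 + A i 1 + A i 2 ≤ 0 := fun i => by
    have := hAB i 0
    have h1 := le_max_left (A i 0) (B 0 0)
    have h2 := le_max_left (A i 1) (B 0 1)
    have h3 := le_max_left (A i 2) (B 0 2)
    linarith
  have ownB : ∀ i, B i 0 + B i 1 + B i 2 ≤ 0 := fun i => by
    have := hAB 0 i
    have h1 := le_max_right (A 0 0) (B i 0)
    have h2 := le_max_right (A 0 1) (B i 1)
    have h3 := le_max_right (A 0 2) (B i 2)
    linarith
  have mix1 : ∀ i j c, A i c + B j (c + 1) + B j (c + 2) ≤ 0 := fun i j c => by
    have := hAB' i j c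
    have h1 := le_max_left (A i c) (B j c)
    have h2 := le_max_right (A i (c + 1)) (B j (c + 1))
    have h3 := le_max_right (A i (c + 2)) (B j (c + 2))
    linarith
  have mix2 : ∀ i j c, B j c + A i (c + 1) + A i (c + 2) ≤ 0 := fun i j c => by
    have := hAB' i j c
    have h1 := le_max_right (A i c) (B j c)
    have h2 := le_max_left (A i (c + 1)) (B j (c + 1))
    have h3 := le_max_left (A i (c + 2)) (B j (c + 2))
    linarith
  have hne : ∀ i : Fin 3, i ≠ i + 1 := by decide
  have sA := fun i : Fin 3 => separated (A i) (A (i + 1)) (ownA _) (ownA _) (hAA _ _ (hne i))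
  have sB := fun i : Fin 3 => separated (B i) (B (i + 1)) (ownB _) (ownB _) (hBB _ _ (hne i))
  choose f hf using sA
  choose g hg using sB
  have hfg : ∀ i j, f i ≠ g j := by
    intro i j hij
    have h1 := hf i
    have h2 := hg j
    rw [hij] at h1
    rcases h1 with h1 | h1 <;> rcases h2 with h2 | h2
    · linarith [mix1 i (j + 1) (g j), mix2 (i + 1) j (g j)]
    · linarith [mix1 i j (g j), mix2 (i + 1) (j + 1) (g j)]
    · linarith [mix1 (i + 1) (j + 1) (g j), mix2 i j (g j)]
    · linarith [mix1 (i + 1) j (g j), mix2 i (j + 1) (g j)]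
  rcases directions f g hfg with ⟨c, hc⟩ | ⟨c, hc⟩
  · refine one_direction (fun i => A i c) (fun i => A i (c + 1)) (fun i => A i (c + 2))
      (fun i => B i c) (fun i => B i (c + 1)) (fun i => B i (c + 2))
      (fun i j => hAB' i j c) (fun i j hij => hBB' i j c hij) (fun i => ?_)
    have := hf i
    rw [hc i] at this
    exact this
  · refine one_direction (fun i => B i c) (fun i => B i (c + 1)) (fun i => B i (c + 2))
      (fun i => A i c) (fun i => A i (c + 1)) (fun i => A i (c + 2))
      (fun i j => ?_) (fun i j hij => hAA' i j c hij) (fun i => ?_)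
    · have := hAB' j i c
      rw [max_comm (A j c), max_comm (A j (c + 1)), max_comm (A j (c + 2))] at this
      exact this
    · have := hg i
      rw [hc i] at this
      exact this

theorem not_max (m n : ℕ) (hm : 3 ≤ m) (hn : 3 ≤ n) :
    ¬ IsMaxTolerance (completeBipartiteGraph (Fin m) (Fin n)) := by
  rintro ⟨I, t, -, ht, h⟩
  have key : ∀ x y, x ≠ y → ((completeBipartiteGraph (Fin m) (Fin n)).Adj x y ↔
      max ((I x).1) ((I y).1) + max (-(I x).2) (-(I y).2) + max (t x) (t y) ≤ 0) := by
    intro x y hxy
    rw [h x y hxy, overlap_eq, le_max_iff, max_neg_neg]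
    constructor
    · rintro (h1 | h1)
      · linarith
      · exact absurd (lt_of_lt_of_le (lt_max_of_lt_left (ht x)) h1) (lt_irrefl _)
    · intro h1
      left
      linarith
  let F : Fin m ⊕ Fin n → Fin 3 → ℝ := fun v => ![(I v).1, -(I v).2, t v]
  have hF : ∀ x y, x ≠ y → ((completeBipartiteGraph (Fin m) (Fin n)).Adj x y ↔
      max (F x 0) (F y 0) + max (F x 1) (F y 1) + max (F x 2) (F y 2) ≤ 0) := key
  refine no_triangles (fun i => F (Sum.inl (Fin.castLE hm i))) (fun i => F (Sum.inr (Fin.castLE hn i)))
    (fun i j => ?_) (fun i j hij => ?_) (fun i j hij => ?_)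
  · exact (hF _ _ (by simp)).1 (by simp)
  · refine lt_of_not_ge fun hle => ?_
    have := (hF _ _ (by simpa using hij)).2 hle
    simp at this
  · refine lt_of_not_ge fun hle => ?_
    have := (hF _ _ (by simpa using hij)).2 hle
    simp at this

/-- **Bounded tolerance graphs need not be max-tolerance graphs.** Every complete bipartite graph is
a bounded tolerance graph, and `K_{m,n}` is not a max-tolerance graph if `m, n ≥ 3`; in particular
`K_{3,3}` is a bounded tolerance graph which is not a max-tolerance graph. -/
theorem result :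
    (∀ m n : ℕ, IsBoundedTolerance (completeBipartiteGraph (Fin m) (Fin n))) ∧
    (∀ m n : ℕ, 3 ≤ m → 3 ≤ n → ¬ IsMaxTolerance (completeBipartiteGraph (Fin m) (Fin n))) ∧
    ¬ (∀ (V : Type) [Finite V] (G : SimpleGraph V), IsBoundedTolerance G → IsMaxTolerance G) :=
  ⟨bounded, not_max, fun h => not_max 3 3 le_rfl le_rfl (h _ _ (bounded 3 3))⟩

end Pool.Agent.Results.MP_78c384_co.CompleteBipartite
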